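import Pool.Agent.H.MP_2e34cc_co.A

set_option autoImplicit false

namespace Pool.Agent.Results.MP_2e34cc_co.Den

open PowerSeries

/-- The polynomial ring in `a, b, c, q` and its fraction field. -/
abbrev R := MvPolynomial (Fin 4) ℤ
abbrev K := FractionRing R

noncomputable def a : K := algebraMap R K (MvPolynomial.X 0)
noncomputable def b : K := algebraMap R K (MvPolynomial.X 1)
noncomputable def c : K := algebraMap R K (MvPolynomial.X 2)
noncomputable def q : K := algebraMap R K (MvPolynomial.X 3)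

noncomputable def poch (x : K) (n : ℕ) : K := ∏ j ∈ Finset.range n, (1 - x * q ^ j)

/-- The basic hypergeometric series in `z`. -/
noncomputable def phi (x y z : K) : K⟦X⟧ :=
  PowerSeries.mk fun n => poch x n * poch y n / (poch q n * poch z n)

noncomputable def D (n : ℕ) : K := ∏ k ∈ Finset.range (n + 1), (1 - c * q ^ k) ^ ((n + 1) / (k + 1))

noncomputable def γ (n : ℕ) : K := coeff n (phi (a * q) (b * q) (c * q) * (phi a b c)⁻¹)

open Pool.Agent.H.MP_2e34cc_co in
theorem result : ∀ n : ℕ, ∃ P : R, γ n / (1 - c) = algebraMap R K P / D n := by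
  intro n
  obtain ⟨P, hP⟩ := final (v 0 * v 3) (v 1 * v 3)
    (Subring.mul_mem _ (poly_mem _ _) (poly_mem _ _))
    (Subring.mul_mem _ (poly_mem _ _) (poly_mem _ _)) n
    (mem1' (hne 3) (hne 2) _ (poly_mem _ _) (poly_mem _ _) i1 _ (poly_mem _ _) _ (poly_mem _ _) n)
  have hD : D n ≠ 0 := Finset.prod_ne_zero_iff.2 fun k _ => pow_ne_zero _ (hne 2 k)
  have h : D n * γ n / (1 - c) = algebraMap R K P := hP
  exact ⟨P, by rw [← h, mul_div_assoc, mul_div_cancel_left₀ _ hD]⟩

end Pool.Agent.Results.MP_2e34cc_co.Den
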